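import Mathlib

set_option autoImplicit false

namespace Pool.Agent.Results.MP_f54ac9_co.No

open Finset

/-- the toroidal box with side lengths `n i` -/
abbrev Box {d : ℕ} (n : Fin d → ℕ+) : Type := ∀ i, ZMod (n i)

/-- concentration of the word `w` in the grid `Γ` (letters are natural numbers) -/
noncomputable def conc {d : ℕ} (w : List ℕ) (n : Fin d → ℕ+) (Γ : Box n → ℕ) : ℝ :=
  ({q : Box n × (Fin d → SignType) | q.2 ≠ 0 ∧ ∀ k : Fin w.length,
      Γ (fun i => q.1 i + ((k : ℕ) : ZMod (n i)) * (q.2 i : ZMod (n i))) = w.get k}.ncard : ℝ) /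
    Nat.card (Box n)

/-- the extremal concentration `C_d(w)` -/
noncomputable def ext (d : ℕ) (w : List ℕ) : ℝ :=
  sSup {c | ∃ (n : Fin d → ℕ+) (Γ : Box n → ℕ), c = conc w n Γ}

/-- letter distribution of a grid -/
noncomputable def dist {d : ℕ} (n : Fin d → ℕ+) (Γ : Box n → ℕ) (a : ℕ) : ℝ :=
  ((Γ ⁻¹' {a}).ncard : ℝ) / Nat.card (Box n)

/-- total variation distance of finitely supported functions -/
noncomputable def tv (h₁ h₂ : ℕ → ℝ) : ℝ := (1 / 2) * ∑ᶠ a, |h₁ a - h₂ a|

def bt (x : Bool) : ℕ := if x then 0 else 1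

def t1 (a b c d e f : Bool) : ℤ :=
  [4, 4, 3, 2, 2, 9, 5, 8, 4, 0, 4, 4, 5, 6, 9, 10, 0, 0, 4, 4, 0, 0, 0, 0, 1, 1, 4, 4, 0, 0, 0, 0,
    5, 6, 5, 5, 5, 8, 8, 8, 0, 0, 3, 7, 2, 1, 6, 9, 0, 0, 1, 0, 0, 0, 1, 0, 0, 0, 0, 0, 0, 0, 0,
    0].getD (bt a + 2 * bt b + 4 * bt c + 8 * bt d + 16 * bt e + 32 * bt f) 0

def t2 (a b c d e f : Bool) : ℤ :=
  [4, 0, 5, 2, 6, 8, 6, 4, 1, 1, 0, 0, 0, 0, 0, 0, 1, 4, 5, 9, 3, 8, 4, 4, 2, 2, 0, 1, 2, 2, 2, 2,
    3, 0, 0, 1, 4, 7, 0, 3, 0, 0, 0, 0, 0, 0, 0, 0, 3, 4, 1, 3, 7, 10, 4, 5, 0, 0, 0, 0, 0, 0, 0,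
    0].getD (bt a + 2 * bt b + 4 * bt c + 8 * bt d + 16 * bt e + 32 * bt f) 0

def ap (a b c : Bool) : ℤ := if a = true ∧ b = true ∧ c = false then 1 else 0

lemma cert : ∀ a b c d e f g h i : Bool,
    4 * (ap a e i + ap i e a + ap b e h + ap h e b + ap c e g + ap g e c + ap d e f + ap f e d) ≤
      8 + (t1 a b c d e f - t1 d e f g h i) + (t2 a b d e g h - t2 b c e f h i) := by
  decide +kernel

lemma grp {G : Type} [AddCommGroup G] [Fintype G] (x : G → Bool) (a b : G) :
    ∑ p, ap (x p) (x (p + (a + b))) (x (p + 2 • (a + b))) +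
    ∑ p, ap (x p) (x (p + (-a - b))) (x (p + 2 • (-a - b))) +
    ∑ p, ap (x p) (x (p + a)) (x (p + 2 • a)) +
    ∑ p, ap (x p) (x (p + -a)) (x (p + 2 • -a)) +
    ∑ p, ap (x p) (x (p + (a - b))) (x (p + 2 • (a - b))) +
    ∑ p, ap (x p) (x (p + (b - a))) (x (p + 2 • (b - a))) +
    ∑ p, ap (x p) (x (p + b)) (x (p + 2 • b)) +
    ∑ p, ap (x p) (x (p + -b)) (x (p + 2 • -b)) ≤ 2 * Fintype.card G := by
  have sh : ∀ u : G, ∑ p, ap (x p) (x (p + u)) (x (p + 2 • u)) =
      ∑ c, ap (x (c - u)) (x c) (x (c + u)) := by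
    intro u
    rw [← Equiv.sum_comp (Equiv.subRight u)]
    refine sum_congr rfl fun c _ => ?_
    simp only [Equiv.subRight_apply, sub_add_cancel]
    rw [show c - u + 2 • u = c + u by abel]
  let g1 : G → ℤ := fun c => t1 (x (c - a - b)) (x (c - a)) (x (c - a + b)) (x (c - b)) (x c)
    (x (c + b))
  let g2 : G → ℤ := fun c => t2 (x (c - a - b)) (x (c - a)) (x (c - b)) (x c) (x (c + a - b))
    (x (c + a))
  have e1 : ∑ c, g1 (c + a) = ∑ c, g1 c := Equiv.sum_comp (Equiv.addRight a) g1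
  have e2 : ∑ c, g2 (c + b) = ∑ c, g2 c := Equiv.sum_comp (Equiv.addRight b) g2
  have key : ∀ c : G, 4 * (ap (x (c - (a + b))) (x c) (x (c + (a + b))) +
      ap (x (c - (-a - b))) (x c) (x (c + (-a - b))) + ap (x (c - a)) (x c) (x (c + a)) +
      ap (x (c - -a)) (x c) (x (c + -a)) + ap (x (c - (a - b))) (x c) (x (c + (a - b))) +
      ap (x (c - (b - a))) (x c) (x (c + (b - a))) + ap (x (c - b)) (x c) (x (c + b)) +
      ap (x (c - -b)) (x c) (x (c + -b))) ≤ 8 + (g1 c - g1 (c + a)) + (g2 c - g2 (c + b)) := by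
    intro c
    have := cert (x (c - a - b)) (x (c - a)) (x (c - a + b)) (x (c - b)) (x c) (x (c + b))
      (x (c + a - b)) (x (c + a)) (x (c + a + b))
    simp only [g1, g2]
    rw [show c - (a + b) = c - a - b by abel, show c + (a + b) = c + a + b by abel,
      show c - (-a - b) = c + a + b by abel, show c + (-a - b) = c - a - b by abel,
      show c - -a = c + a by abel, show c + -a = c - a by abel,
      show c - (a - b) = c - a + b by abel, show c + (a - b) = c + a - b by abel,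
      show c - (b - a) = c + a - b by abel, show c + (b - a) = c - a + b by abel,
      show c - -b = c + b by abel, show c + -b = c - b by abel,
      show c + a - a - b = c - b by abel, show c + a - a + b = c + b by abel,
      show c + a - a = c by abel, show c + b - a - b = c - a by abel,
      show c + b - a = c - a + b by abel, show c + b - b = c by abel,
      show c + b + a - b = c + a by abel, show c + b + a = c + a + b by abel]
    exact this
  have := sum_le_sum (s := univ) fun c _ => key c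
  simp only [sh]
  simp only [← mul_sum, sum_add_distrib, sum_sub_distrib, e1, e2, sub_self, sum_const, card_univ,
    nsmul_eq_mul] at this
  linarith

lemma conc_le (n : Fin 2 → ℕ+) (Γ : Box n → ℕ) : conc [0, 0, 1] n Γ ≤ 2 := by
  classical
  let x : Box n → Bool := fun p => decide (Γ p = 0)
  let vec : (Fin 2 → SignType) → Box n := fun v i => (v i : ZMod (n i))
  let a : Box n := vec ![1, 0]
  let b : Box n := vec ![0, 1]
  let F : Box n → ℤ := fun u => ∑ p, ap (x p) (x (p + u)) (x (p + 2 • u))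
  have h1 := grp x a b
  have hv : ∑ v ∈ (univ : Finset (Fin 2 → SignType)).filter (· ≠ 0), F (vec v) =
      F (a + b) + F (-a - b) + F a + F (-a) + F (a - b) + F (b - a) + F b + F (-b) := by
    have : (univ : Finset (Fin 2 → SignType)).filter (· ≠ 0) =
        {![1, 1], ![-1, -1], ![1, 0], ![-1, 0], ![1, -1], ![-1, 1], ![0, 1], ![0, -1]} := by
      decide
    rw [this]
    rw [sum_insert (by decide), sum_insert (by decide), sum_insert (by decide),
      sum_insert (by decide), sum_insert (by decide), sum_insert (by decide),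
      sum_insert (by decide), sum_singleton]
    have e1 : vec ![1, 1] = a + b := by funext i; fin_cases i <;> simp [a, b, vec]
    have e2 : vec ![-1, -1] = -a - b := by funext i; fin_cases i <;> simp [a, b, vec]
    have e3 : vec ![-1, 0] = -a := by funext i; fin_cases i <;> simp [a, vec]
    have e4 : vec ![1, -1] = a - b := by funext i; fin_cases i <;> simp [a, b, vec]
    have e5 : vec ![-1, 1] = b - a := by funext i; fin_cases i <;> simp [a, b, vec]
    have e6 : vec ![0, -1] = -b := by funext i; fin_cases i <;> simp [b, vec]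
    rw [e1, e2, e3, e4, e5, e6]
    ring
  unfold conc
  rw [div_le_iff₀ (by exact_mod_cast Nat.card_pos), Nat.card_eq_fintype_card,
    Set.ncard_eq_toFinset_card', Set.toFinset_ofPred]
  have h2 : (((univ : Finset (Box n × (Fin 2 → SignType))).filter fun q => q.2 ≠ 0 ∧
      ∀ k : Fin [0, 0, 1].length, Γ (fun i => q.1 i + ((k : ℕ) : ZMod (n i)) *
        (q.2 i : ZMod (n i))) = [0, 0, 1].get k).card : ℤ) ≤ 2 * Fintype.card (Box n) := by
    refine le_trans ?_ (hv.le.trans h1)
    rw [card_filter, Fintype.sum_prod_type_right, sum_filter]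
    push_cast
    refine sum_le_sum fun v _ => ?_
    by_cases h0 : v = 0
    · simp [h0]
    · rw [if_pos h0]
      refine sum_le_sum fun p _ => ?_
      split_ifs with h
      · have k0 := h.2 ⟨0, by simp⟩
        have k1 := h.2 ⟨1, by simp⟩
        have k2 := h.2 ⟨2, by simp⟩
        have e0 : Γ p = 0 := by simpa using k0
        have e1 : Γ (p + vec v) = 0 := by
          refine Eq.trans (congrArg Γ ?_) k1
          funext i; simp [vec]
        have e2 : Γ (p + 2 • vec v) = 1 := by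
          refine Eq.trans (congrArg Γ ?_) k2
          funext i; simp [vec]
        simp only [ap, x, e0, e1, e2]
        simp
      · unfold ap; split_ifs <;> simp
  exact_mod_cast h2

def n1 : Fin 2 → ℕ+ := ![1, 3]
def n2 : Fin 2 → ℕ+ := ![4, 8]

def G1 (p : Box n1) : ℕ := if (p 1).val = 2 then 1 else 0

def G2 (p : Box n2) : ℕ :=
  [0, 0, 1, 0, 0, 1, 1, 1, 1, 0, 0, 1, 1, 1, 0, 0, 0, 1, 1, 1, 0, 0, 1, 0, 1, 1, 0, 0, 1, 0, 0,
    1].getD (8 * (p 0).val + (p 1).val) 0

lemma card1 : Nat.card (Box n1) = 3 := by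
  rw [Nat.card_pi]; simp [n1, Fin.prod_univ_two]

lemma card2 : Nat.card (Box n2) = 32 := by
  rw [Nat.card_pi]; simp [n2, Fin.prod_univ_two]

lemma conc1 : conc [0, 0, 1] n1 G1 = 2 := by
  unfold conc
  rw [card1, Set.ncard_eq_toFinset_card', Set.toFinset_ofPred]
  have : ((univ : Finset (Box n1 × (Fin 2 → SignType))).filter fun q => q.2 ≠ 0 ∧
      ∀ k : Fin [0, 0, 1].length, G1 (fun i => q.1 i + ((k : ℕ) : ZMod (n1 i)) *
        (q.2 i : ZMod (n1 i))) = [0, 0, 1].get k).card = 6 := by decide +kernel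
  rw [this]; norm_num

lemma conc2 : conc [0, 0, 1] n2 G2 = 7 / 4 := by
  unfold conc
  rw [card2, Set.ncard_eq_toFinset_card', Set.toFinset_ofPred]
  have : ((univ : Finset (Box n2 × (Fin 2 → SignType))).filter fun q => q.2 ≠ 0 ∧
      ∀ k : Fin [0, 0, 1].length, G2 (fun i => q.1 i + ((k : ℕ) : ZMod (n2 i)) *
        (q.2 i : ZMod (n2 i))) = [0, 0, 1].get k).card = 56 := by decide +kernel
  rw [this]; norm_num

lemma dist_eq {n : Fin 2 → ℕ+} (Γ : Box n → ℕ) (a : ℕ) :
    dist n Γ a = ((univ.filter fun p => Γ p = a).card : ℝ) / Nat.card (Box n) := by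
  unfold dist
  rw [← Set.ncard_coe_finset]
  congr 3
  ext p; simp

lemma ext_eq : ext 2 [0, 0, 1] = 2 :=
  IsGreatest.csSup_eq ⟨⟨n1, G1, conc1.symm⟩, by rintro c ⟨n, Γ, rfl⟩; exact conc_le n Γ⟩

lemma tv_ge {n : Fin 2 → ℕ+} (Γ : Box n → ℕ) (h : ℕ →₀ ℝ) :
    |dist n Γ 0 - h 0| + |dist n Γ 1 - h 1| ≤ 2 * tv (dist n Γ) h := by
  unfold tv
  rw [finsum_eq_sum_of_support_subset (s := {0, 1} ∪ (univ.image Γ ∪ h.support))]
  · rw [← sum_pair (f := fun a => |dist n Γ a - h a|) (show (0 : ℕ) ≠ 1 by simp)]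
    have := sum_le_sum_of_subset_of_nonneg (f := fun a => |dist n Γ a - h a|)
      (subset_union_left (s₁ := {0, 1}) (s₂ := univ.image Γ ∪ h.support)) fun _ _ _ => abs_nonneg _
    linarith
  · intro a ha
    by_contra hc
    simp only [coe_union, Set.mem_union, not_or, mem_coe, mem_image, mem_univ, true_and,
      not_exists, Finsupp.mem_support_iff, not_not] at hc
    apply ha
    show |dist n Γ a - h a| = 0
    rw [dist_eq, hc.2.2, filter_eq_empty_iff.2 fun p _ => hc.2.1 p]
    simp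

/-- For the word `AAB` in dimension two no letter distribution has the stability property. -/
theorem result : ext 2 [0, 0, 1] = 2 ∧ ¬ ∃ h : ℕ →₀ ℝ, ∀ δ : ℝ, 0 ≤ δ →
    ∀ (n : Fin 2 → ℕ+) (Γ : Box n → ℕ),
      ext 2 [0, 0, 1] * (1 - δ) ≤ conc [0, 0, 1] n Γ → tv (dist n Γ) h ≤ δ := by
  refine ⟨ext_eq, ?_⟩
  rintro ⟨h, H⟩
  have a1 := H 0 le_rfl n1 G1 (by rw [ext_eq, conc1]; norm_num)
  have a2 := H (1 / 8) (by norm_num) n2 G2 (by rw [ext_eq, conc2]; norm_num)
  have b1 := tv_ge G1 h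
  have b2 := tv_ge G2 h
  have c1 : (univ.filter fun p => G1 p = 0).card = 2 := by decide +kernel
  have c2 : (univ.filter fun p => G1 p = 1).card = 1 := by decide +kernel
  have c3 : (univ.filter fun p => G2 p = 0).card = 16 := by decide +kernel
  have c4 : (univ.filter fun p => G2 p = 1).card = 16 := by decide +kernel
  rw [dist_eq, dist_eq, card1, c1, c2] at b1
  rw [dist_eq, dist_eq, card2, c3, c4] at b2
  norm_num at b1 b2
  have := le_abs_self (2 / 3 - h 0)
  have := neg_abs_le (3⁻¹ - h 1)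
  have := neg_abs_le (1 / 2 - h 0)
  have := le_abs_self (1 / 2 - h 1)
  linarith

end Pool.Agent.Results.MP_f54ac9_co.No
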